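import Pool.Agent.H1.PF.Unif

set_option autoImplicit false

/-!
# Potential positivity is decidable, with a primitive recursive bound for the automorphism
-/

namespace Pool.Agent.Results.MP_db04f5_al.Bounded

/-- For every `n` it is decidable whether some automorphism of `F_n` sends a given word to a positive element; moreover there is a
primitive recursive function `f` of two variables such that if `w` is potentially positive in `F_n` then there is an automorphism `β`
with `β w` positive and with all `β x_i` and `β⁻¹ x_i` of length at most `f n |w|`. -/
theorem result :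
    (∀ n : ℕ, ComputablePred (fun w : List (Fin n × Bool) =>
      ∃ α : FreeGroup (Fin n) ≃* FreeGroup (Fin n),
        α (FreeGroup.mk w) ∈
          Subsemigroup.closure (Set.range (FreeGroup.of : Fin n → FreeGroup (Fin n))))) ∧
    ∃ f : ℕ → ℕ → ℕ, Primrec₂ f ∧
      ∀ (n : ℕ) (w : List (Fin n × Bool)) (α : FreeGroup (Fin n) ≃* FreeGroup (Fin n)),
        α (FreeGroup.mk w) ∈
          Subsemigroup.closure (Set.range (FreeGroup.of : Fin n → FreeGroup (Fin n))) →
        ∃ β : FreeGroup (Fin n) ≃* FreeGroup (Fin n),
          β (FreeGroup.mk w) ∈
            Subsemigroup.closure (Set.range (FreeGroup.of : Fin n → FreeGroup (Fin n))) ∧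
          ∀ i : Fin n, (β (FreeGroup.of i)).toWord.length ≤ f n w.length ∧
            (β.symm (FreeGroup.of i)).toWord.length ≤ f n w.length :=
  ⟨PF.main, PF.bdF, PF.primrec2_bdF, fun _ w α h => PF.bounded w α h⟩

end Pool.Agent.Results.MP_db04f5_al.Bounded
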