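import Pool.Agent.H1.PP.Final

/-!
# A decidable necessary condition for potential positivity, in every rank

For every `n` it is decidable whether some automorphism of the free group `F_n` makes one of the
generators occur, and only with positive exponents. Every potentially positive element has this
property, and in rank two the property is equivalent to potential positivity.
-/

set_option autoImplicit false

namespace Pool.Agent.Results.MP_db04f5_al.OneGenerator

theorem result : ∀ n : ℕ,
    ComputablePred (fun w : List (Fin n × Bool) =>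
      ∃ (α : FreeGroup (Fin n) ≃* FreeGroup (Fin n)) (i : Fin n),
        (i, true) ∈ (α (FreeGroup.mk w)).toWord ∧ (i, false) ∉ (α (FreeGroup.mk w)).toWord) ∧
    (∀ w : List (Fin n × Bool),
      (∃ α : FreeGroup (Fin n) ≃* FreeGroup (Fin n), α (FreeGroup.mk w) ∈
        Subsemigroup.closure (Set.range (FreeGroup.of : Fin n → FreeGroup (Fin n)))) →
      ∃ (α : FreeGroup (Fin n) ≃* FreeGroup (Fin n)) (i : Fin n),
        (i, true) ∈ (α (FreeGroup.mk w)).toWord ∧ (i, false) ∉ (α (FreeGroup.mk w)).toWord) ∧
    (n = 2 → ∀ w : List (Fin n × Bool),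
      (∃ (α : FreeGroup (Fin n) ≃* FreeGroup (Fin n)) (i : Fin n),
        (i, true) ∈ (α (FreeGroup.mk w)).toWord ∧ (i, false) ∉ (α (FreeGroup.mk w)).toWord) →
      ∃ α : FreeGroup (Fin n) ≃* FreeGroup (Fin n), α (FreeGroup.mk w) ∈
        Subsemigroup.closure (Set.range (FreeGroup.of : Fin n → FreeGroup (Fin n)))) := by
  intro n
  refine ⟨PPos.oneSided_computable n, fun w h => PPos.potPos_oneSided h, ?_⟩
  rintro rfl w h
  exact PPos.oneSided_potPos_two h

end Pool.Agent.Results.MP_db04f5_al.OneGenerator
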